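import Mathlib

/-!
# An infinite-dimensional Noetherian residually nilpotent Lie algebra

For a field `k` of characteristic zero let `L` be the Lie algebra of the derivations `D` of `k[X]`
with `X ^ 2 ∣ D X` (basis `X ^ (n + 1) d/dX`, `n ≥ 1`; the positive part of the Witt algebra).
We show that `L` is infinite-dimensional, satisfies the maximal condition on subalgebras, and is
residually nilpotent.
-/

open Polynomial

namespace Pool.Agent.Results.MP_d0ec72_al.PositiveWitt

universe u

/-! ### A combinatorial lemma -/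

/-- Every set `D` of positive natural numbers has a finite subset `F` such that every set
containing `F` and closed under sums of two different elements contains `D`. -/
lemma exists_finite_gen (D : Set ℕ) (hpos : ∀ x ∈ D, 0 < x) :
    ∃ F : Finset ℕ, (∀ x ∈ F, x ∈ D) ∧
      ∀ E : Set ℕ, (∀ x ∈ E, ∀ y ∈ E, x ≠ y → x + y ∈ E) → (∀ x ∈ F, x ∈ E) → D ⊆ E := by
  classical
  by_cases hne : D.Nonempty
  swap
  · refine ⟨∅, by simp, ?_⟩
    intro E _ _ x hx
    exact absurd ⟨x, hx⟩ hne
  obtain ⟨a, haD, hamin⟩ : ∃ a ∈ D, ∀ x ∈ D, a ≤ x := by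
    refine ⟨sInf D, Nat.sInf_mem hne, fun x hx => Nat.sInf_le hx⟩
  have ha0 : 0 < a := hpos a haD
  -- the minimal element of `D \ {a}` in the class of `r` modulo `a`
  let S : ℕ → Set ℕ := fun r => {x | x ∈ D ∧ x ≠ a ∧ x % a = r}
  let m : ℕ → ℕ := fun r => sInf (S r)
  have hm : ∀ r, (S r).Nonempty → m r ∈ S r := fun r hr => Nat.sInf_mem hr
  refine ⟨insert a (((Finset.range a).filter (fun r => (S r).Nonempty)).image m), ?_, ?_⟩
  · intro x hx
    rw [Finset.mem_insert] at hx
    rcases hx with rfl | hx
    · exact haD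
    · rw [Finset.mem_image] at hx
      obtain ⟨r, hr, rfl⟩ := hx
      rw [Finset.mem_filter] at hr
      exact (hm r hr.2).1
  · intro E hE hF x hxD
    have haE : a ∈ E := hF a (Finset.mem_insert_self _ _)
    by_cases hxa : x = a
    · rw [hxa]; exact haE
    have hxS : x ∈ S (x % a) := ⟨hxD, hxa, rfl⟩
    have hSne : (S (x % a)).Nonempty := ⟨x, hxS⟩
    have hmr : x % a < a := Nat.mod_lt _ ha0
    have hmE : m (x % a) ∈ E := by
      apply hF
      apply Finset.mem_insert_of_mem
      apply Finset.mem_image_of_mem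
      rw [Finset.mem_filter]
      exact ⟨Finset.mem_range.2 hmr, hSne⟩
    have hmS := hm _ hSne
    have hmle : m (x % a) ≤ x := Nat.sInf_le hxS
    have hma : a < m (x % a) := lt_of_le_of_ne (hamin _ hmS.1) (Ne.symm hmS.2.1)
    have hmod : m (x % a) % a = x % a := hmS.2.2
    obtain ⟨q, hq⟩ : ∃ q, x = m (x % a) + q * a := by
      have h1 : (x - m (x % a)) % a = 0 := by
        have : m (x % a) ≡ x [MOD a] := hmod
        exact (Nat.sub_mod_eq_zero_of_mod_eq this.symm)
      obtain ⟨q, hq⟩ := Nat.dvd_of_mod_eq_zero h1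
      refine ⟨q, ?_⟩
      rw [mul_comm] at hq
      omega
    have key : ∀ q : ℕ, m (x % a) + q * a ∈ E := by
      intro q
      induction q with
      | zero => simpa using hmE
      | succ q ih =>
        have h2 : m (x % a) + q * a ≠ a := by
          have : m (x % a) ≤ m (x % a) + q * a := Nat.le_add_right _ _
          omega
        have := hE _ ih _ haE h2
        have h3 : m (x % a) + (q + 1) * a = m (x % a) + q * a + a := by ring
        rw [h3]
        exact this
    rw [hq]
    exact key q

/-! ### The Lie algebra -/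

variable (k : Type u) [Field k]

/-- The derivations `D` of `k[X]` with `X ^ n ∣ D X`, as a submodule. -/
def fil (n : ℕ) : Submodule k (Derivation k k[X] k[X]) where
  carrier := {D | X ^ n ∣ D X}
  add_mem' := by
    intro a b ha hb
    simp only [Set.mem_ofPred_eq, Derivation.coe_add, Pi.add_apply] at *
    exact dvd_add ha hb
  zero_mem' := by simp
  smul_mem' := by
    intro c a ha
    simp only [Set.mem_ofPred_eq, Derivation.coe_smul, Pi.smul_apply] at *
    rw [smul_eq_C_mul]
    exact Dvd.dvd.mul_left ha _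

variable {k}

lemma mem_fil {n : ℕ} {D : Derivation k k[X] k[X]} : D ∈ fil k n ↔ X ^ n ∣ D X := Iff.rfl

lemma der_apply (D : Derivation k k[X] k[X]) (f : k[X]) : D f = derivative f * D X := by
  have h : D = Polynomial.mkDerivation k (D X) := by
    apply Polynomial.derivation_ext
    simp
  conv_lhs => rw [h]
  rw [Polynomial.mkDerivation_apply]
  simp [smul_eq_mul]

lemma bracket_X (D E : Derivation k k[X] k[X]) :
    ⁅D, E⁆ X = derivative (E X) * D X - derivative (D X) * E X := by
  rw [Derivation.commutator_apply, der_apply D (E X), der_apply E (D X)]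

lemma der_ext {D E : Derivation k k[X] k[X]} (h : D X = E X) : D = E :=
  Polynomial.derivation_ext h

lemma dvd_derivative {n : ℕ} {f : k[X]} (h : X ^ (n + 1) ∣ f) : X ^ n ∣ derivative f := by
  obtain ⟨g, rfl⟩ := h
  rw [derivative_mul, derivative_X_pow]
  refine dvd_add ?_ ?_
  · simp only [Nat.add_sub_cancel]
    exact ⟨C ((n + 1 : ℕ) : k) * g, by ring⟩
  · exact ⟨X * derivative g, by ring⟩

/-- `[fil 2, fil n] ⊆ fil (n + 1)` for `n ≥ 1`. -/
lemma bracket_mem {n : ℕ} {D E : Derivation k k[X] k[X]} (hD : D ∈ fil k 2)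
    (hE : E ∈ fil k (n + 1)) : ⁅D, E⁆ ∈ fil k (n + 2) := by
  rw [mem_fil] at *
  rw [bracket_X]
  refine dvd_sub ?_ ?_
  · have h1 := dvd_derivative hE
    have := mul_dvd_mul h1 hD
    rwa [← pow_add] at this
  · have h1 : X ^ 1 ∣ derivative (D X) := dvd_derivative hD
    have := mul_dvd_mul h1 hE
    rw [← pow_add] at this
    convert this using 2
    omega

variable (k) in
/-- The positive part of the Witt algebra: derivations `D` of `k[X]` with `X ^ 2 ∣ D X`. -/
def W : LieSubalgebra k (Derivation k k[X] k[X]) where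
  __ := fil k 2
  lie_mem' := by
    intro D E hD hE
    have h := bracket_mem (n := 1) hD hE
    exact dvd_trans (pow_dvd_pow X (by omega)) h

lemma mem_W {D : Derivation k k[X] k[X]} : D ∈ W k ↔ X ^ 2 ∣ D X := Iff.rfl

lemma natDegree_ge {D : Derivation k k[X] k[X]} (h : D ∈ W k) (h0 : D ≠ 0) :
    2 ≤ (D X).natDegree := by
  rw [mem_W] at h
  have hne : D X ≠ 0 := by
    intro h1
    apply h0
    apply der_ext
    simpa using h1
  have := natDegree_le_of_dvd h hne
  simpa using this

lemma natDegree_bracket [CharZero k] {D E : Derivation k k[X] k[X]} (hD : D ∈ W k) (hD0 : D ≠ 0)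
    (hE : E ∈ W k) (hE0 : E ≠ 0) (hne : (D X).natDegree ≠ (E X).natDegree) :
    ⁅D, E⁆ ≠ 0 ∧ (⁅D, E⁆ X).natDegree = (D X).natDegree + (E X).natDegree - 1 := by
  obtain ⟨m, hm⟩ : ∃ m, (D X).natDegree = m + 1 := ⟨(D X).natDegree - 1, by
    have := natDegree_ge hD hD0; omega⟩
  obtain ⟨n, hn⟩ : ∃ n, (E X).natDegree = n + 1 := ⟨(E X).natDegree - 1, by
    have := natDegree_ge hE hE0; omega⟩
  have hDX : D X ≠ 0 := fun h1 => hD0 (der_ext (by simpa using h1))
  have hEX : E X ≠ 0 := fun h1 => hE0 (der_ext (by simpa using h1))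
  have hdD : (derivative (D X)).natDegree ≤ m := by
    have := natDegree_derivative_le (D X); omega
  have hdE : (derivative (E X)).natDegree ≤ n := by
    have := natDegree_derivative_le (E X); omega
  have h1 : (derivative (E X) * D X).coeff (n + (m + 1))
      = (derivative (E X)).coeff n * (D X).coeff (m + 1) :=
    coeff_mul_add_eq_of_natDegree_le hdE hm.le
  have h2 : (derivative (D X) * E X).coeff (m + (n + 1))
      = (derivative (D X)).coeff m * (E X).coeff (n + 1) :=
    coeff_mul_add_eq_of_natDegree_le hdD hn.le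
  have hc : (⁅D, E⁆ X).coeff (m + n + 1)
      = ((n : k) - (m : k)) * ((D X).leadingCoeff * (E X).leadingCoeff) := by
    rw [bracket_X, coeff_sub]
    have e1 : n + (m + 1) = m + n + 1 := by omega
    have e2 : m + (n + 1) = m + n + 1 := by omega
    rw [e1] at h1
    rw [e2] at h2
    rw [h1, h2, coeff_derivative, coeff_derivative, leadingCoeff, leadingCoeff, hm, hn]
    ring
  have hc0 : (⁅D, E⁆ X).coeff (m + n + 1) ≠ 0 := by
    rw [hc]
    refine mul_ne_zero ?_ (mul_ne_zero ?_ ?_)
    · rw [sub_ne_zero]
      intro h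
      have : n = m := by exact_mod_cast h
      omega
    · exact leadingCoeff_ne_zero.2 hDX
    · exact leadingCoeff_ne_zero.2 hEX
  have hle : (⁅D, E⁆ X).natDegree ≤ m + n + 1 := by
    rw [bracket_X]
    refine (natDegree_sub_le _ _).trans (max_le ?_ ?_)
    · refine natDegree_mul_le.trans ?_
      omega
    · refine natDegree_mul_le.trans ?_
      omega
  constructor
  · intro h
    rw [h] at hc0
    simp at hc0
  · have := le_natDegree_of_ne_zero hc0
    omega

/-- The set of the numbers `natDegree (D X) - 1`, `0 ≠ D ∈ S`. -/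
def degs (S : LieSubalgebra k (W k)) : Set ℕ :=
  {i | ∃ D : W k, D ∈ S ∧ D ≠ 0 ∧ ((D : Derivation k k[X] k[X]) X).natDegree = i + 1}

lemma degs_pos (S : LieSubalgebra k (W k)) : ∀ i ∈ degs S, 0 < i := by
  rintro i ⟨D, _, hD0, hdeg⟩
  have := natDegree_ge D.2 (fun h => hD0 (Subtype.ext h))
  omega

lemma degs_add [CharZero k] (S : LieSubalgebra k (W k)) :
    ∀ i ∈ degs S, ∀ j ∈ degs S, i ≠ j → i + j ∈ degs S := by
  rintro i ⟨D, hDS, hD0, hD⟩ j ⟨E, hES, hE0, hE⟩ hij
  have h := natDegree_bracket D.2 (fun h => hD0 (Subtype.ext h)) E.2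
    (fun h => hE0 (Subtype.ext h)) (by omega)
  refine ⟨⁅D, E⁆, S.lie_mem hDS hES, ?_, ?_⟩
  · intro h0
    apply h.1
    have := congrArg (fun z : W k => (z : Derivation k k[X] k[X])) h0
    simpa using this
  · rw [LieSubalgebra.coe_bracket, h.2]
    omega

/-- A subalgebra of `S` with the same degrees is `S`. -/
lemma eq_of_degs {T S : LieSubalgebra k (W k)} (hTS : T ≤ S) (h : degs S ⊆ degs T) : T = S := by
  refine le_antisymm hTS ?_
  have key : ∀ n : ℕ, ∀ D : W k, D ∈ S →
      ((D : Derivation k k[X] k[X]) X).natDegree ≤ n → D ∈ T := by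
    intro n
    induction n with
    | zero =>
      intro D hD hdeg
      by_cases h0 : D = 0
      · rw [h0]; exact T.zero_mem
      · have := natDegree_ge D.2 (fun h => h0 (Subtype.ext h))
        omega
    | succ n ih =>
      intro D hD hdeg
      by_cases h0 : D = 0
      · rw [h0]; exact T.zero_mem
      have h2 := natDegree_ge D.2 (fun h => h0 (Subtype.ext h))
      by_cases hlt : ((D : Derivation k k[X] k[X]) X).natDegree ≤ n
      · exact ih D hD hlt
      have hdn : ((D : Derivation k k[X] k[X]) X).natDegree = n + 1 := by omega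
      obtain ⟨E, hET, hE0, hEd⟩ := h ⟨D, hD, h0, hdn⟩
      have hDX : (D : Derivation k k[X] k[X]) X ≠ 0 := by
        intro h1
        rw [h1] at hdn
        simp at hdn
      have hEX : (E : Derivation k k[X] k[X]) X ≠ 0 := by
        intro h1
        rw [h1] at hEd
        simp at hEd
      set c : k := ((D : Derivation k k[X] k[X]) X).leadingCoeff /
        ((E : Derivation k k[X] k[X]) X).leadingCoeff with hc
      have hsub : D - c • E ∈ T := by
        apply ih
        · exact S.sub_mem hD (S.smul_mem c (hTS hET))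
        · have hcoe : ((D - c • E : W k) : Derivation k k[X] k[X]) X
              = (D : Derivation k k[X] k[X]) X - C c * (E : Derivation k k[X] k[X]) X := by
            simp [smul_eq_C_mul]
          rw [hcoe]
          have hE' : (C c * (E : Derivation k k[X] k[X]) X).natDegree ≤ n + 1 := by
            refine (natDegree_C_mul_le _ _).trans ?_
            omega
          have hle : ((D : Derivation k k[X] k[X]) X - C c * (E : Derivation k k[X] k[X]) X).natDegree
              ≤ n + 1 := (natDegree_sub_le _ _).trans (max_le hdn.le hE')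
          have hcoeff : ((D : Derivation k k[X] k[X]) X
              - C c * (E : Derivation k k[X] k[X]) X).coeff (n + 1) = 0 := by
            rw [coeff_sub, coeff_C_mul]
            have e1 : ((D : Derivation k k[X] k[X]) X).coeff (n + 1)
                = ((D : Derivation k k[X] k[X]) X).leadingCoeff := by rw [leadingCoeff, hdn]
            have e2 : ((E : Derivation k k[X] k[X]) X).coeff (n + 1)
                = ((E : Derivation k k[X] k[X]) X).leadingCoeff := by rw [leadingCoeff, hEd]
            rw [e1, e2, hc, div_mul_cancel₀ _ (leadingCoeff_ne_zero.2 hEX), sub_self]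
          rw [natDegree_le_iff_coeff_eq_zero]
          intro N hN
          by_cases hN1 : N = n + 1
          · rw [hN1]; exact hcoeff
          · exact coeff_eq_zero_of_natDegree_lt (by omega)
      have : D = (D - c • E) + c • E := by abel
      rw [this]
      exact T.add_mem hsub (T.smul_mem c hET)
  intro D hD
  exact key _ D hD le_rfl

/-- The maximal condition on subalgebras. -/
lemma max_cond [CharZero k] (s : ℕ →o LieSubalgebra k (W k)) :
    ∃ n, ∀ m, n ≤ m → s m = s n := by
  classical
  -- the union of the degree sets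
  obtain ⟨F, hF, hgen⟩ := exists_finite_gen (⋃ n, degs (s n)) (by
    intro x hx
    obtain ⟨n, hn⟩ := Set.mem_iUnion.1 hx
    exact degs_pos _ x hn)
  have hmono : ∀ {a b : ℕ}, a ≤ b → degs (s a) ⊆ degs (s b) := by
    rintro a b hab i ⟨D, hD, h0, hd⟩
    exact ⟨D, s.monotone hab hD, h0, hd⟩
  have hchoose : ∀ x : ℕ, ∃ n, x ∈ F → x ∈ degs (s n) := by
    intro x
    by_cases hx : x ∈ F
    · obtain ⟨n, hn⟩ := Set.mem_iUnion.1 (hF x hx)
      exact ⟨n, fun _ => hn⟩
    · exact ⟨0, fun h => absurd h hx⟩
  choose N hN using hchoose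
  refine ⟨F.sup N, fun m hm => ?_⟩
  have hsub : (⋃ n, degs (s n)) ⊆ degs (s (F.sup N)) := by
    apply hgen
    · exact degs_add _
    · intro x hx
      exact hmono (Finset.le_sup hx) (hN x hx)
  exact (eq_of_degs (s.monotone hm)
    ((Set.subset_iUnion (fun n => degs (s n)) m).trans hsub)).symm

/-- The ideals of the residual filtration. -/
def J (n : ℕ) : LieIdeal k (W k) where
  carrier := {D | X ^ (n + 2) ∣ (D : Derivation k k[X] k[X]) X}
  add_mem' := by
    intro a b ha hb
    exact (fil k (n + 2)).add_mem (x := (a : Derivation k k[X] k[X])) ha hb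
  zero_mem' := (fil k (n + 2)).zero_mem
  smul_mem' := by
    intro c a ha
    exact (fil k (n + 2)).smul_mem c (x := (a : Derivation k k[X] k[X])) ha
  lie_mem := by
    intro D E hE
    have h := bracket_mem (n := n + 1) (D := (D : Derivation k k[X] k[X])) D.2 hE
    exact dvd_trans (pow_dvd_pow X (by omega)) h

lemma mem_J {n : ℕ} {D : W k} : D ∈ J (k := k) n ↔
    X ^ (n + 2) ∣ (D : Derivation k k[X] k[X]) X := Iff.rfl

lemma lcs_le (n : ℕ) : LieModule.lowerCentralSeries k (W k) (W k) n ≤ J (k := k) n := by
  induction n with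
  | zero =>
    intro D _
    exact D.2
  | succ n ih =>
    rw [LieModule.lowerCentralSeries_succ]
    rw [LieSubmodule.lieIdeal_oper_eq_span, LieSubmodule.lieSpan_le]
    rintro _ ⟨D, E, rfl⟩
    have hE := ih E.2
    exact bracket_mem (n := n + 1) (D := ((D : W k) : Derivation k k[X] k[X])) (D : W k).2 hE

lemma nilp (n : ℕ) : LieRing.IsNilpotent (W k ⧸ J (k := k) n) := by
  have h1 : LieModule.IsNilpotent (W k) (W k ⧸ J (k := k) n) :=
    (LieModule.isNilpotent_quotient_iff k (W k) (W k) (J (k := k) n)).2 ⟨n, lcs_le n⟩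
  obtain ⟨m, hm⟩ := (LieModule.isNilpotent_iff k (W k) (W k ⧸ J (k := k) n)).1 h1
  refine (LieModule.isNilpotent_iff k (W k ⧸ J (k := k) n) (W k ⧸ J (k := k) n)).2 ⟨m, ?_⟩
  rw [← LieSubmodule.toSubmodule_inj, ← coe_lowerCentralSeries_ideal_quot_eq, hm]
  rfl

/-- The basis elements `X ^ (n + 2) d/dX`. -/
noncomputable def w (n : ℕ) : W k := ⟨Polynomial.mkDerivation k (X ^ (n + 2)), by
  rw [mem_W, Polynomial.mkDerivation_X]
  exact pow_dvd_pow X (by omega)⟩

lemma infinite_dim : ¬ Module.Finite k (W k) := by
  intro hfin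
  let φ : W k →ₗ[k] k[X] :=
    { toFun := fun D => (D : Derivation k k[X] k[X]) X
      map_add' := fun a b => by simp
      map_smul' := fun c a => by simp }
  have hli : LinearIndependent k (fun n : ℕ => (w n : W k)) := by
    have h1 : LinearIndependent k (fun n : ℕ => φ (w n)) := by
      have h2 : (fun n : ℕ => φ (w n)) = fun n : ℕ => (Polynomial.basisMonomials k) (n + 2) := by
        funext n
        simp only [φ, w, LinearMap.coe_mk, AddHom.coe_mk, Polynomial.mkDerivation_X,
          Polynomial.coe_basisMonomials]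
        rw [← Polynomial.monomial_one_right_eq_X_pow]
      rw [h2]
      exact (Polynomial.basisMonomials k).linearIndependent.comp (fun n => n + 2)
        (add_left_injective 2)
    exact LinearIndependent.of_comp φ h1
  exact (not_finite_iff_infinite.2 (inferInstance : Infinite ℕ)) hli.finite

/-- **Main theorem.** Over every field of characteristic zero there is an infinite-dimensional Lie
algebra which satisfies the maximal condition on subalgebras (it is Noetherian) and is
approximable by nilpotent Lie algebras (residually nilpotent). -/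
theorem result (k : Type u) [Field k] [CharZero k] :
    ∃ (L : Type u) (_ : LieRing L) (_ : LieAlgebra k L),
      ¬ Module.Finite k L ∧
      (∀ s : ℕ → LieSubalgebra k L, Monotone s → ∃ n, ∀ m, n ≤ m → s m = s n) ∧
      (∀ x : L, x ≠ 0 → ∃ I : LieIdeal k L, x ∉ I ∧ LieRing.IsNilpotent (L ⧸ I)) := by
  refine ⟨W k, inferInstance, inferInstance, infinite_dim, ?_, ?_⟩
  · intro s hs
    exact max_cond ⟨s, hs⟩
  · intro x hx
    refine ⟨J ((x : Derivation k k[X] k[X]) X).natDegree, ?_, nilp _⟩
    intro h
    rw [mem_J] at h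
    have hne : (x : Derivation k k[X] k[X]) X ≠ 0 := by
      intro h1
      apply hx
      apply Subtype.ext
      apply der_ext
      simpa using h1
    have := natDegree_le_of_dvd h hne
    rw [natDegree_X_pow] at this
    omega

end Pool.Agent.Results.MP_d0ec72_al.PositiveWitt
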